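import Mathlib
import Pool.Agent.Lib.MP_f6153b_al.Group

/-!
# Products of 2-pseudocompact paratopological groups (MP_f6153b_al)

For every index set with at least two elements there is a family of 2-pseudocompact
(commutative, `T₀`) paratopological groups whose product is not 2-pseudocompact.
-/

open Pointwise

namespace Pool.Agent.Results.MP_f6153b_al.NotTwoPcProduct

open Pool.Agent.Lib.MP_f6153b_al

/-- `G` is 2-pseudocompact: for every non-increasing sequence `U 0 ⊇ U 1 ⊇ ...` of nonempty open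
subsets of `G` the intersection of the closures of the sets `(U n)⁻¹` is nonempty. -/
def TwoPseudocompact (G : Type*) [Group G] [TopologicalSpace G] : Prop :=
  ∀ U : ℕ → Set G, (∀ n, IsOpen (U n)) → (∀ n, (U n).Nonempty) → (∀ n, U (n + 1) ⊆ U n) →
    (⋂ n, closure (U n)⁻¹).Nonempty

/-- The group attached to the filter of type `p`, in multiplicative notation. -/
def Grp (_p : ℕ) : Type := Multiplicative X0

noncomputable instance (p : ℕ) : CommGroup (Grp p) := inferInstanceAs (CommGroup (Multiplicative X0))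

noncomputable instance (p : ℕ) : TopologicalSpace (Grp p) := tR (RR p)

instance (p : ℕ) : ContinuousMul (Grp p) :=
  ⟨(coneTop_continuousAdd (fun i : Idx (RR p) => WW i) (WW_dir (RR p))).continuous_add⟩

lemma twoPc_grp (p : ℕ) : TwoPseudocompact (Grp p) := by
  intro U hopen hne hanti
  obtain ⟨z, hz⟩ := two_pc (RR p) (fun S hS => RR_infinite p hS) U hopen hne
    (antitone_nat_of_succ_le hanti)
  exact ⟨z, Set.mem_iInter.2 hz⟩

lemma t0_grp (p : ℕ) : T0Space (Grp p) := by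
  rw [t0Space_iff_not_inseparable]
  intro x y hne hins
  have key : ∀ (x y : X0), @Inseparable X0 (tR (RR p)) x y → ∀ i : Idx (RR p), ∃ w ∈ WW i, y = x + w := by
    intro x y h i
    let t := tR (RR p)
    have h1 := coneTop_isOpen_translate (fun i : Idx (RR p) => WW i) (WW_dir (RR p)) x i
    have h2 := (h.mem_open_iff h1).1 ⟨0, (WW i).zero_mem, (add_zero x).symm⟩
    exact h2
  have h1 := key x y hins
  have h2 := key y x hins.symm
  have hfst : ∀ (x y : X0), (∀ i : Idx (RR p), ∃ w ∈ WW i, y = x + w) → Pos (y.1 - x.1) := by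
    intro x y h
    obtain ⟨w, hw, rfl⟩ := h (Classical.arbitrary _)
    have : (x + w).1 - x.1 = w.1 := by simp
    rw [this]; exact hw.1
  have hsnd : ∀ (x y : X0), (∀ i : Idx (RR p), ∃ w ∈ WW i, y = x + w) → y.2 = x.2 := by
    intro x y h
    funext j
    obtain ⟨w, hw, rfl⟩ := h ⟨fun _ => Set.univ, fun _ => Filter.univ_mem,
      ⟨∅, Set.countable_empty⟩, j + 1⟩
    have := hw.2.1 j (Nat.lt_succ_self j)
    simp [this]
  apply hne
  have h3 := hfst x y h1
  have h4 := hfst y x h2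
  have h5 : (y : X0).1 - (x : X0).1 = 0 := eq_zero_of_pos_neg h3 (by rwa [neg_sub])
  exact Prod.ext (sub_eq_zero.1 h5).symm (hsnd x y h1).symm

/-- 2-pseudocompactness passes to continuous homomorphic images. -/
lemma TwoPseudocompact.map {G H : Type*} [Group G] [TopologicalSpace G] [Group H]
    [TopologicalSpace H] (hG : TwoPseudocompact G) (f : G →* H) (hf : Continuous f)
    (hs : Function.Surjective f) : TwoPseudocompact H := by
  intro U hopen hne hanti
  obtain ⟨z, hz⟩ := hG (fun n => f ⁻¹' (U n)) (fun n => (hopen n).preimage hf)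
    (fun n => by
      obtain ⟨y, hy⟩ := hne n
      obtain ⟨x, rfl⟩ := hs y
      exact ⟨x, hy⟩)
    (fun n => Set.preimage_mono (hanti n))
  refine ⟨f z, Set.mem_iInter.2 fun n => ?_⟩
  have h1 := Set.mem_iInter.1 hz n
  have h2 := image_closure_subset_closure_image hf ⟨z, h1, rfl⟩
  refine closure_mono ?_ h2
  rintro _ ⟨x, hx, rfl⟩
  simpa using hx

/-- The open sets without a common cluster point. -/
def UU (k : ℕ) : Set (X0 × X0) :=
  {z | Pos z.1.1 ∧ Pos z.2.1 ∧ ∃ p ≥ k, Lead z.1.2 p ∧ Lead z.2.2 p}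

lemma lead_neg {u : V} {p : ℕ} (h : Lead u p) : Lead (-u) p :=
  ⟨by rw [Pi.neg_apply]; exact neg_ne_zero.2 h.1, fun i hi => by rw [Pi.neg_apply, h.2 i hi, neg_zero]⟩

lemma UU_open (k : ℕ) : @IsOpen (Grp 0 × Grp 1) _ (UU k) := by
  refine (@isOpen_prod_iff (Grp 0) (Grp 1) _ _ (UU k)).2 ?_
  rintro a b ⟨h1, h2, p, hp, hl, hl'⟩
  let i : Idx (RR 0) := ⟨fun _ => Set.univ, fun _ => Filter.univ_mem,
    ⟨∅, Set.countable_empty⟩, p + 1⟩
  let i' : Idx (RR 1) := ⟨fun _ => Set.univ, fun _ => Filter.univ_mem,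
    ⟨∅, Set.countable_empty⟩, p + 1⟩
  refine ⟨_, _, coneTop_isOpen_translate (fun i : Idx (RR 0) => WW i) (WW_dir (RR 0)) a i,
    coneTop_isOpen_translate (fun i : Idx (RR 1) => WW i) (WW_dir (RR 1)) b i',
    ⟨0, (WW i).zero_mem, (add_zero _).symm⟩, ⟨0, (WW i').zero_mem, (add_zero _).symm⟩, ?_⟩
  rintro ⟨_, _⟩ ⟨⟨w, hw, rfl⟩, ⟨w', hw', rfl⟩⟩
  refine ⟨Pos.add h1 hw.1, Pos.add h2 hw'.1, p, hp, ?_, ?_⟩
  · exact hl.add fun j hj => hw.2.1 j (Nat.lt_succ_of_le hj)
  · exact hl'.add fun j hj => hw'.2.1 j (Nat.lt_succ_of_le hj)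

lemma UU_nonempty (k : ℕ) : (UU k).Nonempty := by
  have hlead : Lead (ind {k}) k := by
    refine ⟨?_, fun i hi => ?_⟩
    · unfold ind; rw [if_pos (Finset.mem_singleton_self k)]; decide
    · unfold ind; rw [if_neg]; rw [Finset.mem_singleton]; omega
  exact ⟨((0, ind {k}), (0, ind {k})), Pos.zero, Pos.zero, k, le_rfl, hlead, hlead⟩

lemma UU_anti (n : ℕ) : UU (n + 1) ⊆ UU n := by
  rintro x ⟨h1, h2, p, hp, hl⟩
  exact ⟨h1, h2, p, Nat.le_of_succ_le hp, hl⟩

lemma not_twoPc_prod : ¬ TwoPseudocompact (Grp 0 × Grp 1) := by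
  intro h
  obtain ⟨z, hz⟩ := h UU UU_open UU_nonempty UU_anti
  -- membership in the closures, unfolded
  obtain ⟨z1, hz1⟩ : ∃ a : X0, a = z.1 := ⟨_, rfl⟩
  obtain ⟨z2, hz2⟩ : ∃ a : X0, a = z.2 := ⟨_, rfl⟩
  have hz' : ∀ (k : ℕ) (i : Idx (RR 0)) (i' : Idx (RR 1)), ∃ w ∈ WW i, ∃ w' ∈ WW i',
      Pos (-(z1.1 + w.1)) ∧ Pos (-(z2.1 + w'.1)) ∧
      ∃ p ≥ k, Lead (-(z1.2 + w.2)) p ∧ Lead (-(z2.2 + w'.2)) p := by
    intro k i i'
    have h1 := Set.mem_iInter.1 hz k
    rw [mem_closure_iff] at h1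
    have ho1 := coneTop_isOpen_translate (fun i : Idx (RR 0) => WW i) (WW_dir (RR 0)) z1 i
    have ho2 := coneTop_isOpen_translate (fun i : Idx (RR 1) => WW i) (WW_dir (RR 1)) z2 i'
    obtain ⟨y, ⟨⟨w, hw, hy1⟩, ⟨w', hw', hy2⟩⟩, hyU⟩ := h1
      (({y | ∃ w ∈ WW i, y = z1 + w} : Set X0) ×ˢ ({y | ∃ w ∈ WW i', y = z2 + w} : Set X0))
      (IsOpen.prod (X := Grp 0) (Y := Grp 1) ho1 ho2)
      ⟨⟨0, (WW i).zero_mem, by rw [add_zero, hz1]⟩, ⟨0, (WW i').zero_mem, by rw [add_zero, hz2]⟩⟩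
    refine ⟨w, hw, w', hw', ?_⟩
    obtain ⟨y1, hy1'⟩ : ∃ a : X0, a = y.1 := ⟨_, rfl⟩
    obtain ⟨y2, hy2'⟩ : ∃ a : X0, a = y.2 := ⟨_, rfl⟩
    have hyU' : ((-y1, -y2) : X0 × X0) ∈ UU k := by rw [hy1', hy2']; exact hyU
    rw [hy1', hy1, hy2', hy2] at hyU'
    exact hyU'
  clear hz hz1 hz2
  set g : CS →₀ ℤ := -z1.1 with hg
  set g' : CS →₀ ℤ := -z2.1 with hg'
  -- `g` is positive and dominates
  have hdec : ∀ (a w : CS →₀ ℤ), Pos w → Pos (-(a + w)) → Pos (-a) ∧ top w ⊆ top (-a) := by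
    intro a w hw haw
    have h1 : -a = -(a + w) + w := by abel
    rw [h1]
    refine ⟨haw.add hw, ?_⟩
    rw [top_add haw hw]
    exact Set.subset_union_right
  obtain ⟨φ, ψ, hφ, hψ, horth⟩ := orthogonal (top g) (top g') (top_countable g) (top_countable g')
  obtain ⟨E, hE⟩ := exists_not_mem (top g) (top_countable g)
  obtain ⟨E', hE'⟩ := exists_not_mem (top g') (top_countable g')
  -- the second components of `z` vanish
  have hz1 : z1.2 = 0 := by
    funext j
    obtain ⟨w, hw, w', hw', -, -, p, hp, hl, -⟩ := hz' (j + 1)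
      ⟨fun _ => Set.univ, fun _ => Filter.univ_mem, ⟨∅, Set.countable_empty⟩, j + 1⟩
      (Classical.arbitrary _)
    have h1 := hl.2 j (by omega)
    rw [Pi.neg_apply, Pi.add_apply, hw.2.1 j (Nat.lt_succ_self j), add_zero, neg_eq_zero] at h1
    exact h1
  have hz2 : z2.2 = 0 := by
    funext j
    obtain ⟨w, hw, w', hw', -, -, p, hp, -, hl⟩ := hz' (j + 1) (Classical.arbitrary _)
      ⟨fun _ => Set.univ, fun _ => Filter.univ_mem, ⟨∅, Set.countable_empty⟩, j + 1⟩
    have h1 := hl.2 j (by omega)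
    rw [Pi.neg_apply, Pi.add_apply, hw'.2.1 j (Nat.lt_succ_self j), add_zero, neg_eq_zero] at h1
    exact h1
  obtain ⟨w, hw, w', hw', hP, hP', p, -, hl, hl'⟩ := hz' 0
    ⟨φ, hφ, ⟨{E}, Set.countable_singleton E⟩, 0⟩ ⟨ψ, hψ, ⟨{E'}, Set.countable_singleton E'⟩, 0⟩
  obtain ⟨-, hsub⟩ := hdec _ _ hw.1 hP
  obtain ⟨-, hsub'⟩ := hdec _ _ hw'.1 hP'
  rw [hz1, zero_add] at hl
  rw [hz2, zero_add] at hl'
  have hm : w.2 ∈ spn φ (top g) := by
    rcases hw.2.2 with h3 | h3
    · exact absurd (hsub (h3 rfl)) hE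
    · exact spn_mono (fun _ => subset_rfl) hsub h3
  have hm' : w'.2 ∈ spn ψ (top g') := by
    rcases hw'.2.2 with h3 | h3
    · exact absurd (hsub' (h3 rfl)) hE'
    · exact spn_mono (fun _ => subset_rfl) hsub' h3
  exact horth _ (Submodule.neg_mem _ hm) _ (Submodule.neg_mem _ hm') p hl hl'

/-- **Negative answer.** For every index set `I` with at least two elements there is a family
`(G i)` of 2-pseudocompact paratopological groups (commutative and `T₀`) whose product is not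
2-pseudocompact. -/
theorem result (I : Type*) [Nontrivial I] :
    ∃ (G : I → Type) (_ : ∀ i, CommGroup (G i)) (_ : ∀ i, TopologicalSpace (G i)),
      (∀ i, ContinuousMul (G i)) ∧ (∀ i, T0Space (G i)) ∧ (∀ i, TwoPseudocompact (G i)) ∧
      ¬ TwoPseudocompact (∀ i, G i) := by
  classical
  obtain ⟨i0, i1, hne⟩ := exists_pair_ne I
  let c : I → ℕ := fun i => if i = i1 then 1 else 0
  refine ⟨fun i => Grp (c i), fun i => inferInstance, fun i => inferInstance,
    fun i => inferInstance, fun i => t0_grp _, fun i => twoPc_grp _, ?_⟩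
  intro h
  let π : (∀ i, Grp (c i)) →* Grp (c i0) × Grp (c i1) :=
    MonoidHom.prod (Pi.evalMonoidHom _ i0) (Pi.evalMonoidHom _ i1)
  have hcont : Continuous π := (continuous_apply i0).prodMk (continuous_apply i1)
  have hsurj : Function.Surjective π := by
    rintro ⟨a, b⟩
    let v : ∀ i, Grp (c i) := Function.update (Function.update (fun _ => 1) i0 a) i1 b
    have h0 : v i0 = a := by
      simp only [v]
      rw [Function.update_of_ne hne, Function.update_self]
    have h1 : v i1 = b := by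
      simp only [v]
      rw [Function.update_self]
    exact ⟨v, Prod.ext h0 h1⟩
  have h2 := h.map π hcont hsurj
  have hc0 : c i0 = 0 := if_neg hne
  have hc1 : c i1 = 1 := if_pos rfl
  have key : ∀ p q : ℕ, p = 0 → q = 1 → ¬ TwoPseudocompact (Grp p × Grp q) := by
    rintro p q rfl rfl
    exact not_twoPc_prod
  exact key _ _ hc0 hc1 h2

end Pool.Agent.Results.MP_f6153b_al.NotTwoPcProduct
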